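import Mathlib

open MeasureTheory Filter Topology Set Real
open scoped ENNReal

namespace Pool.Agent.H.MP_a755a8_mp

abbrev R3 : Type := Fin 3 → ℝ

theorem cs {p q : ℝ → ℝ} {a b P : ℝ} (hab : a ≤ b) (hp : ContinuousOn p (Icc a b)) (hq : Continuous q) (P0 : 0 < P)
    (hP : ∫ r in a..b, p r ^ 2 ≤ P) : (∫ r in a..b, p r * q r) ^ 2 ≤ P * ∫ r in a..b, q r ^ 2 := by
  set I := ∫ r in a..b, p r * q r
  have i1 : IntervalIntegrable (fun r => p r ^ 2) volume a b := (hp.pow 2).intervalIntegrable_of_Icc hab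
  have i2 : IntervalIntegrable (fun r => p r * q r) volume a b := (hp.mul hq.continuousOn).intervalIntegrable_of_Icc hab
  have i3 : IntervalIntegrable (fun r => q r ^ 2) volume a b := (hq.pow 2).intervalIntegrable _ _
  have h : 0 ≤ ∫ r in a..b, (I ^ 2 * p r ^ 2 - 2 * I * P * (p r * q r) + P ^ 2 * q r ^ 2) :=
    intervalIntegral.integral_nonneg hab fun r _ => by nlinarith [sq_nonneg (I * p r - P * q r)]
  rw [intervalIntegral.integral_add ((i1.const_mul _).sub (i2.const_mul _)) (i3.const_mul _),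
    intervalIntegral.integral_sub (i1.const_mul _) (i2.const_mul _)] at h
  simp only [intervalIntegral.integral_const_mul] at h
  have := mul_le_mul_of_nonneg_left hP (sq_nonneg I)
  refine le_of_mul_le_mul_left ?_ P0
  nlinarith

noncomputable def kap (L : R3 →L[ℝ] ℂ) : ℝ := ∑ d, ‖L (Pi.single d 1)‖ ^ 2

theorem kap0 (L : R3 →L[ℝ] ℂ) : 0 ≤ kap L := Finset.sum_nonneg fun _ _ => sq_nonneg _

theorem kap_c : Continuous kap := by unfold kap; fun_prop

theorem kap_le (L : R3 →L[ℝ] ℂ) {v : R3} {s : ℝ} (h : ∀ d, |v d| ≤ s) : ‖L v‖ ^ 2 ≤ 3 * s ^ 2 * kap L := by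
  have s0 : 0 ≤ s := (abs_nonneg _).trans (h 0)
  have e : L v = ∑ d, v d • L (Pi.single d 1) := by
    conv_lhs => rw [pi_eq_sum_univ' v]
    simp
  have a : ‖L v‖ ≤ s * ∑ d, ‖L (Pi.single d 1)‖ := by
    rw [e, Finset.mul_sum]
    exact (norm_sum_le _ _).trans (Finset.sum_le_sum fun d _ => by rw [norm_smul]; gcongr; exact h d)
  refine (pow_le_pow_left₀ (norm_nonneg _) a 2).trans ?_
  have := sq_sum_le_card_mul_sum_sq (s := Finset.univ) (f := fun d : Fin 3 => ‖L (Pi.single d 1)‖)
  simp only [Finset.card_univ, Fintype.card_fin, Nat.cast_ofNat] at this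
  rw [mul_pow, kap]; nlinarith [sq_nonneg s]

theorem seg {f : R3 → ℂ} {f' : R3 → R3 →L[ℝ] ℂ} (hf : ∀ x, HasFDerivAt f (f' x) x) (hc : Continuous f') {x y : R3} {s u : ℝ}
    (h : ∀ d, |x d - y d| ≤ s) (u0 : 0 < u) (u1 : u ≤ 1) : ‖f x - f y‖ ^ 2 ≤
      24 * s ^ 2 * u ^ 3 * (∫ r in (0 : ℝ)..u, kap (f' (y + r ^ 2 • (x - y)))) +
      24 * s ^ 2 / u * ∫ r in u..1, r ^ 4 * kap (f' (y + r ^ 2 • (x - y))) := by
  let a := fun r : ℝ => ‖f' (y + r ^ 2 • (x - y)) (x - y)‖
  have ca : Continuous a := by fun_prop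
  have ck : Continuous fun r : ℝ => kap (f' (y + r ^ 2 • (x - y))) := kap_c.comp (by fun_prop)
  have ak : ∀ r, a r ^ 2 ≤ 3 * s ^ 2 * kap (f' (y + r ^ 2 • (x - y))) := fun r => kap_le _ h
  have d : ∀ r : ℝ, HasDerivAt (fun r : ℝ => f (y + r ^ 2 • (x - y))) ((2 * r) • f' (y + r ^ 2 • (x - y)) (x - y)) r := fun r =>
    ((hf _).comp_hasDerivAt r (((hasDerivAt_pow 2 r).smul_const (x - y)).const_add y)).congr_deriv (by simp)
  have e := intervalIntegral.integral_eq_sub_of_hasDerivAt (a := 0) (b := 1) (fun r _ => d r) (Continuous.intervalIntegrable (by fun_prop) _ _)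
  simp only [one_pow, one_smul, add_sub_cancel, ne_eq, OfNat.ofNat_ne_zero, not_false_eq_true, zero_pow, zero_smul, add_zero] at e
  have b : ‖f x - f y‖ ≤ (∫ r in (0 : ℝ)..u, 2 * r * a r) + ∫ r in u..1, 2 / r * (r ^ 2 * a r) := by
    rw [← e, intervalIntegral.integral_congr (f := fun r => 2 / r * (r ^ 2 * a r)) (g := fun r => 2 * r * a r) fun r hr => by
      rw [uIcc_of_le u1] at hr
      have : r ≠ 0 := (u0.trans_le hr.1).ne'
      field_simp, intervalIntegral.integral_add_adjacent_intervals (Continuous.intervalIntegrable (by fun_prop) _ _)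
        (Continuous.intervalIntegrable (by fun_prop) _ _)]
    refine (intervalIntegral.norm_integral_le_integral_norm zero_le_one).trans (le_of_eq (intervalIntegral.integral_congr fun r hr => ?_))
    rw [uIcc_of_le zero_le_one] at hr
    simp only [norm_smul, Real.norm_eq_abs, a]
    rw [abs_of_nonneg (by linarith [hr.1])]
  have c1 := cs (p := fun r => 2 * r) (q := a) (P := 4 * u ^ 3) u0.le (by fun_prop) ca (by positivity) (by
    simp only [mul_pow, intervalIntegral.integral_const_mul, integral_pow]; nlinarith [pow_pos u0 3])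
  have c2 := cs (p := fun r => 2 / r) (q := fun r => r ^ 2 * a r) (P := 4 / u) u1
    (continuousOn_const.div continuousOn_id fun r hr => (u0.trans_le hr.1).ne') (by fun_prop) (by positivity) (by
    have ci : ContinuousOn (fun r : ℝ => (2 / r) ^ 2) (Icc u 1) := (continuousOn_const.div continuousOn_id fun r hr => (u0.trans_le hr.1).ne').pow 2
    rw [intervalIntegral.integral_eq_sub_of_hasDerivAt (f := fun r => -4 * r⁻¹) (fun r hr => by
      rw [uIcc_of_le u1] at hr
      have : r ≠ 0 := (u0.trans_le hr.1).ne'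
      exact ((hasDerivAt_inv this).const_mul (-4)).congr_deriv (by field_simp; norm_num))
      (ci.intervalIntegrable_of_Icc u1)]
    rw [div_eq_mul_inv]; linarith)
  have e1 : ∫ r in (0 : ℝ)..u, a r ^ 2 ≤ 3 * s ^ 2 * ∫ r in (0 : ℝ)..u, kap (f' (y + r ^ 2 • (x - y))) := by
    rw [← intervalIntegral.integral_const_mul]
    exact intervalIntegral.integral_mono_on u0.le (Continuous.intervalIntegrable (by fun_prop) _ _)
      (Continuous.intervalIntegrable (by fun_prop) _ _) fun r _ => ak r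
  have e2 : ∫ r in u..1, (r ^ 2 * a r) ^ 2 ≤ 3 * s ^ 2 * ∫ r in u..1, r ^ 4 * kap (f' (y + r ^ 2 • (x - y))) := by
    rw [← intervalIntegral.integral_const_mul]
    exact intervalIntegral.integral_mono_on u1 (Continuous.intervalIntegrable (by fun_prop) _ _)
      (Continuous.intervalIntegrable (by fun_prop) _ _) fun r _ => by nlinarith [mul_le_mul_of_nonneg_left (ak r) (by positivity : 0 ≤ r ^ 4)]
  have f1 := c1.trans (mul_le_mul_of_nonneg_left e1 (by positivity))
  have f2 := c2.trans (mul_le_mul_of_nonneg_left e2 (by positivity))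
  have := pow_le_pow_left₀ (norm_nonneg _) b 2
  rw [div_eq_mul_inv] at f2 ⊢
  nlinarith [sq_nonneg ((∫ r in (0 : ℝ)..u, 2 * r * a r) - ∫ r in u..1, 2 / r * (r ^ 2 * a r))]

theorem cv {k : R3 → ℝ≥0∞} (hk : Measurable k) {A B : Set R3} (hA : MeasurableSet A) (hB : MeasurableSet B) {c : ℝ} (c0 : 0 < c) (v : R3)
    (h : ∀ z ∈ A, c • z + v ∈ B) : ∫⁻ z in A, k (c • z + v) ≤ ENNReal.ofReal (c ^ 3)⁻¹ * ∫⁻ z in B, k z := by
  have m : Measurable (B.indicator k) := hk.indicator hB
  calc _ = ∫⁻ z in A, B.indicator k (c • z + v) := setLIntegral_congr_fun hA fun z hz => (indicator_of_mem (h z hz) k).symm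
    _ ≤ ∫⁻ z, B.indicator k (c • z + v) := setLIntegral_le_lintegral _ _
    _ = ∫⁻ z, B.indicator k (z + v) ∂(Measure.map (c • ·) volume) := (lintegral_map (m.comp (measurable_add_const v)) (measurable_const_smul c)).symm
    _ = _ := by
      rw [Measure.map_addHaar_smul _ c0.ne', lintegral_smul_measure, lintegral_add_right_eq_self, lintegral_indicator hB]
      simp [abs_of_pos (pow_pos c0 3)]

def cube (c : R3) (s : ℝ) : Set R3 := univ.pi fun d => Ico (c d) (c d + s)

theorem cube_m (c : R3) (s : ℝ) : MeasurableSet (cube c s) := .univ_pi fun _ => measurableSet_Ico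

theorem cube_v (c : R3) {s : ℝ} (h : 0 ≤ s) : volume (cube c s) = ENNReal.ofReal (s ^ 3) := by
  simp [cube, volume_pi_Ico, ENNReal.ofReal_pow h]

theorem poin {f : R3 → ℂ} {f' : R3 → R3 →L[ℝ] ℂ} (hf : ∀ x, HasFDerivAt f (f' x) x) (hc : Continuous f') {c : R3} {s u m : ℝ} (s0 : 0 < s)
    (u0 : 0 < u) (u1 : u ≤ 1 / 2) (m0 : 0 < m) {S : Set R3} (hS : MeasurableSet S) (SB : S ⊆ cube c s) (hm : ENNReal.ofReal m ≤ volume S) :
    ∫⁻ x in cube c s, ENNReal.ofReal (‖f x‖ ^ 2) ≤ ENNReal.ofReal (2 * s ^ 3 / m) * (∫⁻ x in S, ENNReal.ofReal (‖f x‖ ^ 2)) +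
      ENNReal.ofReal (384 * s ^ 5 * u ^ 4 / m + 48 * s ^ 2 / u ^ 2) * ∫⁻ x in cube c s, ENNReal.ofReal (kap (f' x)) := by
  set B := cube c s
  have hB : MeasurableSet B := cube_m c s
  have vB : volume B = ENNReal.ofReal (s ^ 3) := cube_v c s0.le
  have cB : Convex ℝ B := convex_pi fun d _ => convex_Ico _ _
  have cf : Continuous f := continuous_iff_continuousAt.2 fun x => (hf x).continuousAt
  let k := fun x => ENNReal.ofReal (kap (f' x))
  have mk : Measurable k := (kap_c.comp hc).measurable.ennreal_ofReal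
  set K := ∫⁻ x in B, k x
  let g := fun x => ENNReal.ofReal (‖f x‖ ^ 2)
  have mg : Measurable g := by fun_prop
  have pt : ∀ y ∈ S, ∀ x ∈ B, g x ≤ 2 * g y + (ENNReal.ofReal (48 * s ^ 2 * u ^ 3) * (∫⁻ r in Ioc 0 u, k (y + r ^ 2 • (x - y))) +
      ENNReal.ofReal (48 * s ^ 2 / u) * ∫⁻ r in Ioc u 1, ENNReal.ofReal (r ^ 4) * k (y + r ^ 2 • (x - y))) := fun y hy x hx => by
    have a := seg hf hc (x := x) (y := y) (s := s) (fun d => by
      have a := hx d trivial; have b := SB hy d trivial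
      exact abs_le.2 ⟨by linarith [a.1, b.2], by linarith [a.2, b.1]⟩) u0 (by linarith)
    have ck : Continuous fun r : ℝ => kap (f' (y + r ^ 2 • (x - y))) := kap_c.comp (by fun_prop)
    have q : ∀ r t : ℝ, ENNReal.ofReal (r ^ 4) * ENNReal.ofReal t = ENNReal.ofReal (r ^ 4 * t) := fun r t => (ENNReal.ofReal_mul (by positivity)).symm
    simp only [k, g, q]
    rw [← ofReal_integral_eq_lintegral_ofReal (ck.integrableOn_Ioc) (.of_forall fun r => kap0 _),
      ← ofReal_integral_eq_lintegral_ofReal (Continuous.integrableOn_Ioc (by fun_prop)) (.of_forall fun r => mul_nonneg (by positivity) (kap0 _)),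
      ← intervalIntegral.integral_of_le u0.le, ← intervalIntegral.integral_of_le (by linarith), ← ENNReal.ofReal_mul (by positivity),
      ← ENNReal.ofReal_mul (by positivity), ← ENNReal.ofReal_ofNat 2, ← ENNReal.ofReal_mul (by positivity)]
    refine le_trans (ENNReal.ofReal_le_ofReal ?_) (ENNReal.ofReal_add_le.trans (add_le_add le_rfl ENNReal.ofReal_add_le))
    have b : ‖f x‖ ≤ ‖f y‖ + ‖f x - f y‖ := by simpa using norm_add_le (f y) (f x - f y)
    have := pow_le_pow_left₀ (norm_nonneg _) b 2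
    rw [div_eq_mul_inv] at a ⊢
    nlinarith [sq_nonneg (‖f y‖ - ‖f x - f y‖)]
  have mk3 : Measurable fun p : (R3 × R3) × ℝ => k (p.1.1 + p.2 ^ 2 • (p.1.2 - p.1.1)) := mk.comp (by fun_prop)
  have i1 : ∫⁻ p, (∫⁻ r in Ioc 0 u, k (p.1 + r ^ 2 • (p.2 - p.1))) ∂((volume.restrict S).prod (volume.restrict B)) ≤
      ENNReal.ofReal (8 * s ^ 3 * u) * K := by
    rw [lintegral_lintegral_swap mk3.aemeasurable]
    refine (setLIntegral_mono' measurableSet_Ioc (g := fun _ => ENNReal.ofReal (8 * s ^ 3) * K) fun r hr => ?_).trans ?_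
    · rw [lintegral_prod_symm _ (by fun_prop)]
      have r2 : r ^ 2 ≤ 1 / 4 := by nlinarith [hr.1, hr.2]
      refine (setLIntegral_mono' hB (g := fun _ => 8 * K) fun x hx => ?_).trans ?_
      · simp only [show ∀ y : R3, y + r ^ 2 • (x - y) = (1 - r ^ 2) • y + r ^ 2 • x from fun y => by module]
        refine (cv mk hS hB (by linarith) _ fun y hy => cB (SB hy) hx (by linarith) (sq_nonneg _) (by ring)).trans ?_
        gcongr
        rw [← ENNReal.ofReal_ofNat 8]
        refine ENNReal.ofReal_le_ofReal (inv_le_of_inv_le₀ (by norm_num) ?_)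
        have := pow_le_pow_left₀ (by norm_num) (by linarith : (1 / 2 : ℝ) ≤ 1 - r ^ 2) 3
        linarith
      · rw [setLIntegral_const, vB, ENNReal.ofReal_mul (by norm_num), ENNReal.ofReal_ofNat]; exact le_of_eq (by ring)
    · rw [setLIntegral_const, volume_Ioc, ENNReal.ofReal_mul (by positivity : 0 ≤ 8 * s ^ 3), sub_zero]; exact le_of_eq (by ring)
  have i2 : ∫⁻ p, (∫⁻ r in Ioc u 1, ENNReal.ofReal (r ^ 4) * k (p.1 + r ^ 2 • (p.2 - p.1))) ∂((volume.restrict S).prod (volume.restrict B)) ≤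
      ENNReal.ofReal u⁻¹ * (K * volume S) := by
    rw [lintegral_lintegral_swap (Measurable.aemeasurable (by fun_prop))]
    refine (setLIntegral_mono' measurableSet_Ioc (g := fun r => ENNReal.ofReal (r ^ 2)⁻¹ * (K * volume S)) fun r hr => ?_).trans ?_
    · have r0 : 0 < r := u0.trans hr.1
      have r2 : r ^ 2 ≤ 1 := by nlinarith [hr.2]
      rw [lintegral_const_mul _ (by fun_prop), lintegral_prod _ (by fun_prop)]
      refine (mul_le_mul_right (setLIntegral_mono' hS (g := fun _ => ENNReal.ofReal ((r ^ 2) ^ 3)⁻¹ * K) fun y hy => ?_) _).trans ?_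
      · simp only [show ∀ x : R3, y + r ^ 2 • (x - y) = r ^ 2 • x + (1 - r ^ 2) • y from fun y => by module]
        exact cv mk hB hB (by positivity) _ fun x hx => cB hx (SB hy) (sq_nonneg _) (by linarith) (by ring)
      · rw [setLIntegral_const, ← mul_assoc, ← mul_assoc, ← ENNReal.ofReal_mul (by positivity), mul_assoc]
        exact le_of_eq (by congr 2; field_simp)
    · rw [lintegral_mul_const _ (by fun_prop)]
      gcongr
      have ci : ContinuousOn (fun r : ℝ => (r ^ 2)⁻¹) (Icc u 1) := (continuousOn_id.pow 2).inv₀ fun r hr => (pow_pos (u0.trans_le hr.1) 2).ne'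
      rw [← ofReal_integral_eq_lintegral_ofReal (ci.integrableOn_Icc.mono_set Ioc_subset_Icc_self) (.of_forall fun r => by positivity),
        ← intervalIntegral.integral_of_le (by linarith),
        intervalIntegral.integral_eq_sub_of_hasDerivAt (f := fun r => -r⁻¹) (fun r hr => by
          rw [uIcc_of_le (by linarith)] at hr
          exact (hasDerivAt_inv (u0.trans_le hr.1).ne').neg.congr_deriv (by simp)) (ci.intervalIntegrable_of_Icc (by linarith))]
      exact ENNReal.ofReal_le_ofReal (by linarith)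
  have tot := lintegral_mono_ae (μ := (volume.restrict S).prod (volume.restrict B)) (f := fun p => g p.2) (by
    rw [Measure.prod_restrict]
    exact ae_restrict_of_forall_mem (hS.prod hB) fun p hp => pt p.1 hp.1 p.2 hp.2)
  rw [lintegral_add_left (by fun_prop), lintegral_add_left (by fun_prop), lintegral_const_mul _ (by fun_prop), lintegral_const_mul _ (by fun_prop),
    lintegral_const_mul _ (by fun_prop), lintegral_prod _ (by fun_prop), lintegral_prod _ (by fun_prop)] at tot
  simp only [lintegral_const, Measure.restrict_apply_univ] at tot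
  rw [lintegral_mul_const _ mg, vB] at tot
  have S0 : volume S ≠ 0 := ((ENNReal.ofReal_pos.2 m0).trans_le hm).ne'
  have S1 : volume S ≠ ⊤ := ((measure_mono SB).trans_lt (vB ▸ ENNReal.ofReal_lt_top)).ne
  refine (ENNReal.mul_le_mul_iff_left S0 S1).1 (tot.trans ?_)
  have t : ∀ a : ℝ, 0 ≤ a → ENNReal.ofReal a ≤ ENNReal.ofReal (a / m) * volume S := fun a ha =>
    le_trans (by rw [← ENNReal.ofReal_mul (by positivity), div_mul_cancel₀ _ m0.ne']) (mul_le_mul_right hm _)
  rw [add_mul, ENNReal.ofReal_add (by positivity) (by positivity), add_mul, add_mul]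
  refine add_le_add ?_ (add_le_add ?_ ?_)
  · calc _ = ENNReal.ofReal (2 * s ^ 3) * ∫⁻ x in S, g x := by
          rw [ENNReal.ofReal_mul (by norm_num), ENNReal.ofReal_ofNat]; ring
      _ ≤ _ := (mul_le_mul_left (t _ (by positivity)) _).trans (le_of_eq (by ring))
  · calc _ ≤ ENNReal.ofReal (384 * s ^ 5 * u ^ 4) * K := by
          refine (mul_le_mul_right i1 _).trans (le_of_eq ?_)
          rw [← mul_assoc, ← ENNReal.ofReal_mul (by positivity)]; congr 2; ring
      _ ≤ _ := (mul_le_mul_left (t _ (by positivity)) _).trans (le_of_eq (by ring))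
  · refine (mul_le_mul_right i2 _).trans (le_of_eq ?_)
    rw [← mul_assoc, ← mul_assoc, ← ENNReal.ofReal_mul (by positivity)]; congr 3; field_simp

end Pool.Agent.H.MP_a755a8_mp
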