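import Pool.Agent.H.MP_a755a8_mp.A

open MeasureTheory Filter Topology Set Real Function
open scoped ENNReal

namespace Pool.Agent.H.MP_a755a8_mp

variable {N : ℕ} {ψ : (Fin N → R3) → ℂ}

noncomputable def kin (ψ : (Fin N → R3) → ℂ) (i : Fin N) (x : Fin N → R3) : ℝ := ∑ d, ‖fderiv ℝ ψ x (Pi.single i (Pi.single d 1))‖ ^ 2

theorem kin0 (i : Fin N) (x : Fin N → R3) : 0 ≤ kin ψ i x := Finset.sum_nonneg fun _ _ => sq_nonneg _

theorem kin_c (h : ContDiff ℝ 1 ψ) (i : Fin N) : Continuous (kin ψ i) := by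
  have := h.continuous_fderiv one_ne_zero
  unfold kin; fun_prop

theorem step (h : ContDiff ℝ 1 ψ) {B : Fin N → Set R3} {l : Fin N} {c : R3} {s u m : ℝ} (hl : B l = cube c s) (s0 : 0 < s)
    (u0 : 0 < u) (u1 : u ≤ 1 / 2) (m0 : 0 < m) {A T : Set (Fin N → R3)} (mA : MeasurableSet A) (mT : MeasurableSet T)
    (hA : ∀ x t, update x l t ∈ A ↔ x ∈ A) (hT : ∀ x ∈ A, update x l ⁻¹' T ⊆ cube c s ∧ ENNReal.ofReal m ≤ volume (update x l ⁻¹' T)) :
    ∫⁻ x in univ.pi B, A.indicator (fun x => ENNReal.ofReal (‖ψ x‖ ^ 2)) x ≤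
      ENNReal.ofReal (2 * s ^ 3 / m) * (∫⁻ x in univ.pi B, (A ∩ T).indicator (fun x => ENNReal.ofReal (‖ψ x‖ ^ 2)) x) +
      ENNReal.ofReal (384 * s ^ 5 * u ^ 4 / m + 48 * s ^ 2 / u ^ 2) * ∫⁻ x in univ.pi B, ENNReal.ofReal (kin ψ l x) := by
  have c0 := h.continuous
  have c1 := h.continuous_fderiv one_ne_zero
  have mg : Measurable fun x => ENNReal.ofReal (‖ψ x‖ ^ 2) := by fun_prop
  have mk : Measurable fun x => ENNReal.ofReal (kin ψ l x) := (kin_c h l).measurable.ennreal_ofReal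
  have m1 := mg.indicator (mA.inter mT)
  rw [← lintegral_const_mul _ m1, ← lintegral_const_mul _ mk, ← lintegral_add_left (m1.const_mul _), volume_pi, Measure.restrict_pi_pi]
  refine lintegral_le_of_lmarginal_le {l} (mg.indicator mA) ((m1.const_mul _).add (mk.const_mul _)) fun x => ?_
  simp only [lmarginal_singleton, hl]
  by_cases hx : x ∈ A
  swap
  · simp [indicator_of_notMem (fun e => hx ((hA x _).1 e))]
  have mu : Measurable (update x l) := measurable_update x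
  have mS := mu mT
  have := poin (f := fun t => ψ (update x l t)) (f' := fun t => (fderiv ℝ ψ (update x l t)).comp (.single ℝ (fun _ => R3) l)) (fun t =>
    (h.differentiable one_ne_zero _).hasFDerivAt.comp t (by
      refine (hasFDerivAt_update (𝕜 := ℝ) x t).congr_fderiv (ContinuousLinearMap.ext fun v => funext fun j => ?_)
      by_cases e : j = l
      · subst e; simp
      · simp [e])) (by fun_prop) s0 u0 u1 m0 mS (hT x hx).1 (hT x hx).2
  simp only [indicator_of_mem ((hA x _).2 hx)]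
  refine this.trans (le_of_eq ?_)
  erw [lintegral_add_left ((m1.comp mu).const_mul _), lintegral_const_mul _ (m1.comp mu), lintegral_const_mul _ (mk.comp mu)]
  congr 2
  rw [← inter_eq_left.2 (hT x hx).1, ← Measure.restrict_restrict mS, ← lintegral_indicator mS]
  congr 1; ext t
  by_cases e : update x l t ∈ T
  · rw [indicator_of_mem (show t ∈ update x l ⁻¹' T from e), comp_apply, indicator_of_mem (mem_inter ((hA x _).2 hx) e)]
  · rw [indicator_of_notMem (show t ∉ update x l ⁻¹' T from e), comp_apply, indicator_of_notMem fun a : _ ∈ A ∩ T => e a.2]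

theorem vdata {V : R3 × R3 → ℝ} (mV : Measurable V) (V0 : ∀ p, 0 ≤ V p) (cV : HasCompactSupport V) (nV : ¬ V =ᵐ[volume] 0) :
    ∃ δ > 0, ∃ m > 0, ∃ R > 0, ∃ D : Set R3, MeasurableSet D ∧ ENNReal.ofReal m ≤ volume D ∧
      ∀ p ∈ D, ‖p‖ ≤ R ∧ ENNReal.ofReal m ≤ volume {q | δ ≤ V (p, q)} ∧ ∀ q, δ ≤ V (p, q) → ‖q‖ ≤ R := by
  obtain ⟨R, R0, hR⟩ := cV.isCompact.isBounded.exists_pos_norm_le
  have pos : ∀ {X : Type} [MeasurableSpace X] (μ : Measure X) (F : X → ℝ≥0∞), ¬ F =ᵐ[μ] 0 →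
      ∃ δ : ℝ, 0 < δ ∧ μ {x | ENNReal.ofReal δ ≤ F x} ≠ 0 := fun μ F hF => by
    by_contra c
    push Not at c
    refine hF (measure_mono_null (fun x hx => ?_) (measure_iUnion_null fun n : ℕ => c (1 / (n + 1)) (by positivity)))
    obtain ⟨n, hn⟩ := ENNReal.exists_inv_nat_lt (a := F x) hx
    refine mem_iUnion.2 ⟨n, le_trans ?_ hn.le⟩
    rw [one_div, ENNReal.ofReal_inv_of_pos (by positivity), ← ENNReal.ofReal_natCast]
    exact ENNReal.inv_le_inv.2 (ENNReal.ofReal_le_ofReal (by linarith))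
  obtain ⟨δ, d0, hδ⟩ := pos volume (fun p => ENNReal.ofReal (V p)) fun e => nV (e.mono fun p hp =>
    le_antisymm (ENNReal.ofReal_eq_zero.1 hp) (V0 p))
  simp only [ENNReal.ofReal_le_ofReal_iff (V0 _)] at hδ
  have mS : MeasurableSet {p | δ ≤ V p} := measurableSet_le measurable_const mV
  obtain ⟨m, m0, hm⟩ := pos volume _ fun e => hδ ((Measure.measure_prod_null mS).2 e)
  obtain ⟨m', m1, hm'⟩ : ∃ m' > 0, ENNReal.ofReal m' ≤ volume {x : R3 | ENNReal.ofReal m ≤ volume (Prod.mk x ⁻¹' {p | δ ≤ V p})} := by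
    obtain ⟨r, a, b, c⟩ := ENNReal.lt_iff_exists_real_btwn.1 (pos_iff_ne_zero.2 hm)
    exact ⟨r, ENNReal.ofReal_pos.1 b, c.le⟩
  have su : ∀ p q, δ ≤ V (p, q) → ‖(p, q)‖ ≤ R := fun p q e => hR _ (subset_tsupport _ (d0.trans_le e).ne')
  refine ⟨δ, d0, min m m', lt_min m0 m1, R, R0, _, measurableSet_le measurable_const (measurable_measure_prodMk_left mS),
    (ENNReal.ofReal_le_ofReal (min_le_right _ _)).trans hm', fun p hp => ⟨?_, (ENNReal.ofReal_le_ofReal (min_le_left _ _)).trans hp,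
    fun q e => (norm_snd_le (p, q)).trans (su p q e)⟩⟩
  obtain ⟨q, e⟩ := nonempty_of_measure_ne_zero ((ENNReal.ofReal_pos.2 m0).trans_le hp).ne'
  exact (norm_fst_le (p, q)).trans (su p q e)

theorem triple {V : R3 × R3 → ℝ} (mV : Measurable V) (V0 : ∀ p, 0 ≤ V p) (cV : HasCompactSupport V) (nV : ¬ V =ᵐ[volume] 0) :
    ∃ C > 0, ∃ σ > 0, ∀ (N : ℕ) (ψ : (Fin N → R3) → ℂ), ContDiff ℝ 1 ψ → ∀ (B : Fin N → Set R3) (i j k : Fin N) (c : R3) (s n : ℝ),
      i < j → j < k → B i = cube c s → B j = cube c s → B k = cube c s → 0 < n → σ ≤ s * n →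
      ∫⁻ x in univ.pi B, ENNReal.ofReal (‖ψ x‖ ^ 2) ≤ ENNReal.ofReal (C * n ^ 4 * s ^ 6) * ∫⁻ x in univ.pi B,
        ENNReal.ofReal (kin ψ i x + kin ψ j x + kin ψ k x + n ^ 2 * V (n • (x i - x j), n • (x i - x k)) * ‖ψ x‖ ^ 2) := by
  obtain ⟨δ, d0, m, m0, R, R0, D, mD, vD, hD⟩ := vdata mV V0 cV nV
  refine ⟨384 + 16 * (384 / m + 48) + 32 / m * (384 / m + 48) + 64 / (m ^ 2 * δ), by positivity, 4 * R + 4, by positivity,
    fun N ψ h B i j k c s n ij jk Bi Bj Bk n0 hs => ?_⟩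
  have s0 : 0 < s := pos_of_mul_pos_right (by linarith : 0 < n * s) n0.le
  have Rn : R / n ≤ s / 4 := by rw [div_le_iff₀ n0]; linarith
  have Rp : 0 < R / n := by positivity
  let In := cube (fun d => c d + R / n) (s - 2 * (R / n))
  have sub : ∀ y ∈ In, ∀ t, ‖n • (y - t)‖ ≤ R → t ∈ cube c s := fun y hy t ht d _ => by
    have a := (norm_le_pi_norm _ d).trans ht
    rw [Pi.smul_apply, norm_smul, Real.norm_eq_abs, abs_of_pos n0, ← le_div_iff₀' n0, Real.norm_eq_abs, Pi.sub_apply, abs_le] at a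
    have b := hy d trivial
    exact ⟨by linarith [b.1, a.2], by linarith [b.2, a.1]⟩
  have vol : ∀ (y : R3) (S : Set R3), ENNReal.ofReal m ≤ volume S → ENNReal.ofReal (m / n ^ 3) ≤ volume {t | n • (y - t) ∈ S} := fun y S hS => by
    have : {t | n • (y - t) ∈ S} = (fun t => y - t) ⁻¹' ((n • ·) ⁻¹' S) := rfl
    rw [this, (Measure.measurePreserving_sub_left volume y).measure_preimage_emb (MeasurableEquiv.subLeft y).measurableEmbedding, Measure.addHaar_preimage_smul _ n0.ne', div_eq_inv_mul, ENNReal.ofReal_mul (by positivity)]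
    simp only [Module.finrank_fin_fun, abs_of_pos (inv_pos.2 (pow_pos n0 3))]
    gcongr
  have ik := ij.trans jk
  let A1 : Set (Fin N → R3) := {x | x i ∈ In}
  let T2 : Set (Fin N → R3) := {x | n • (x i - x j) ∈ D}
  let T3 : Set (Fin N → R3) := {x | δ ≤ V (n • (x i - x j), n • (x i - x k))}
  have m1 : MeasurableSet A1 := measurable_pi_apply i (cube_m _ _)
  have m2 : MeasurableSet T2 := (by fun_prop : Measurable fun x : Fin N → R3 => n • (x i - x j)) mD
  have mU : Measurable fun x : Fin N → R3 => V (n • (x i - x j), n • (x i - x k)) := by fun_prop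
  have m3 : MeasurableSet T3 := measurableSet_le measurable_const mU
  have sn : 0 < s * n := by positivity
  have u0 : 0 < √(s * n)⁻¹ := by positivity
  have u2 : √(s * n)⁻¹ ^ 2 = (s * n)⁻¹ := sq_sqrt (by positivity)
  have u1 : √(s * n)⁻¹ ≤ 1 / 2 := sqrt_le_iff.2 ⟨by norm_num, inv_le_of_inv_le₀ (by norm_num) (by norm_num; linarith)⟩
  have a1 := step h Bi s0 (u := 1 / 2) (m := s ^ 3 / 8) (by norm_num) le_rfl (by positivity) .univ m1 (by simp) fun x _ => by
    have e : update x i ⁻¹' A1 = In := by ext t; simp [A1]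
    rw [e]
    refine ⟨fun y hy => sub y hy y (by simpa using R0.le), ?_⟩
    rw [cube_v _ (by linarith)]
    refine ENNReal.ofReal_le_ofReal ?_
    have := pow_le_pow_left₀ (by positivity) (by linarith : s / 2 ≤ s - 2 * (R / n)) 3
    linarith
  have a2 := step h Bj s0 u0 u1 (m := m / n ^ 3) (by positivity) m1 m2 (fun x t => by simp [A1, ij.ne]) fun x hx => by
    have e : update x j ⁻¹' T2 = {t | n • (x i - t) ∈ D} := by ext t; simp [T2, ij.ne]
    rw [e]
    exact ⟨fun t ht => sub _ hx t (hD _ ht).1, vol _ _ vD⟩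
  have a3 := step h Bk s0 u0 u1 (m := m / n ^ 3) (by positivity) (m1.inter m2) m3 (fun x t => by simp [A1, T2, ik.ne, jk.ne]) fun x hx => by
    have e : update x k ⁻¹' T3 = {t | n • (x i - t) ∈ {q | δ ≤ V (n • (x i - x j), q)}} := by ext t; simp [T3, ik.ne, jk.ne]
    rw [e]
    exact ⟨fun t ht => sub _ hx.1 t ((hD _ hx.2).2.2 _ ht), vol _ _ (hD _ hx.2).2.1⟩
  simp only [indicator_univ, univ_inter] at a1
  set Z := ∫⁻ x in univ.pi B, ENNReal.ofReal (kin ψ i x + kin ψ j x + kin ψ k x + n ^ 2 * V (n • (x i - x j), n • (x i - x k)) * ‖ψ x‖ ^ 2)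
  have p : ∀ x : Fin N → R3, 0 ≤ n ^ 2 * V (n • (x i - x j), n • (x i - x k)) * ‖ψ x‖ ^ 2 := fun x => by have := V0 (n • (x i - x j), n • (x i - x k)); positivity
  have z1 : ∫⁻ x in univ.pi B, ENNReal.ofReal (kin ψ i x) ≤ Z :=
    lintegral_mono fun x => ENNReal.ofReal_le_ofReal (by linarith [kin0 (ψ := ψ) j x, kin0 (ψ := ψ) k x, p x])
  have z2 : ∫⁻ x in univ.pi B, ENNReal.ofReal (kin ψ j x) ≤ Z :=
    lintegral_mono fun x => ENNReal.ofReal_le_ofReal (by linarith [kin0 (ψ := ψ) i x, kin0 (ψ := ψ) k x, p x])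
  have z3 : ∫⁻ x in univ.pi B, ENNReal.ofReal (kin ψ k x) ≤ Z :=
    lintegral_mono fun x => ENNReal.ofReal_le_ofReal (by linarith [kin0 (ψ := ψ) j x, kin0 (ψ := ψ) i x, p x])
  have z4 : ∫⁻ x in univ.pi B, (A1 ∩ T2 ∩ T3).indicator (fun x => ENNReal.ofReal (‖ψ x‖ ^ 2)) x ≤ ENNReal.ofReal (n ^ 2 * δ)⁻¹ * Z := by
    rw [← lintegral_const_mul' _ _ ENNReal.ofReal_ne_top]
    refine lintegral_mono fun x => indicator_apply_le' (fun hx => ?_) fun _ => bot_le
    rw [← ENNReal.ofReal_mul (by positivity)]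
    refine ENNReal.ofReal_le_ofReal ?_
    rw [le_inv_mul_iff₀ (by positivity)]
    have : n ^ 2 * δ * ‖ψ x‖ ^ 2 ≤ n ^ 2 * V (n • (x i - x j), n • (x i - x k)) * ‖ψ x‖ ^ 2 := by gcongr; exact hx.2
    linarith [kin0 (ψ := ψ) j x, kin0 (ψ := ψ) i x, kin0 (ψ := ψ) k x]
  refine a1.trans ((add_le_add (mul_le_mul_right (a2.trans (add_le_add (mul_le_mul_right (a3.trans (add_le_add (mul_le_mul_right z4 _)
    (mul_le_mul_right z3 _))) _) (mul_le_mul_right z2 _))) _) (mul_le_mul_right z1 _)).trans ?_)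
  rw [← mul_assoc, ← add_mul, ← mul_assoc, ← add_mul, ← mul_assoc, ← add_mul]
  gcongr
  rw [show √(s * n)⁻¹ ^ 4 = (√(s * n)⁻¹ ^ 2) ^ 2 by ring, u2, ← ENNReal.ofReal_mul (by positivity), ← ENNReal.ofReal_add (by positivity) (by positivity),
    ← ENNReal.ofReal_mul (by positivity), ← ENNReal.ofReal_add (by positivity) (by positivity),
    ← ENNReal.ofReal_mul (by positivity), ← ENNReal.ofReal_add (by positivity) (by positivity)]
  refine ENNReal.ofReal_le_ofReal ?_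
  have g1 : 1 ≤ s * n := by linarith
  have g3 : s ^ 3 * n ≤ n ^ 4 * s ^ 6 := by nlinarith [mul_le_mul_of_nonneg_left (one_le_pow₀ g1 (n := 3)) (by positivity : 0 ≤ s ^ 3 * n)]
  have g4 : s ^ 2 ≤ n ^ 4 * s ^ 6 := by nlinarith [mul_le_mul_of_nonneg_left (one_le_pow₀ g1 (n := 4)) (by positivity : 0 ≤ s ^ 2)]
  calc _ = 384 * s ^ 2 + 16 * (384 / m + 48) * (s ^ 3 * n) + (32 / m * (384 / m + 48) + 64 / (m ^ 2 * δ)) * (n ^ 4 * s ^ 6) := by
        field_simp; ring
    _ ≤ 384 * (n ^ 4 * s ^ 6) + 16 * (384 / m + 48) * (n ^ 4 * s ^ 6) + (32 / m * (384 / m + 48) + 64 / (m ^ 2 * δ)) * (n ^ 4 * s ^ 6) := by gcongr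
    _ = _ := by ring

end Pool.Agent.H.MP_a755a8_mp
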