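import Pool.Agent.H.MP_a755a8_mp.B

open MeasureTheory Filter Topology Set Real Function
open scoped ENNReal

namespace Pool.Agent.H.MP_a755a8_mp

variable {N : ℕ} {ψ : (Fin N → R3) → ℂ} {U : Fin N → Fin N → Fin N → (Fin N → R3) → ℝ}

noncomputable def en (ψ : (Fin N → R3) → ℂ) (U : Fin N → Fin N → Fin N → (Fin N → R3) → ℝ) (P : Finset (Fin N)) (x : Fin N → R3) : ℝ :=
  ∑ i ∈ P, (kin ψ i x + ∑ j ∈ P, ∑ k ∈ P, U i j k x)

theorem en0 (U0 : ∀ i j k x, 0 ≤ U i j k x) (P : Finset (Fin N)) (x : Fin N → R3) : 0 ≤ en ψ U P x :=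
  Finset.sum_nonneg fun _ _ => add_nonneg (kin0 _ _) (Finset.sum_nonneg fun _ _ => Finset.sum_nonneg fun _ _ => U0 _ _ _ _)

theorem inn (U0 : ∀ i j k x, 0 ≤ U i j k x) {P Q : Finset (Fin N)} (h : Q ⊆ P) (x : Fin N → R3) :
    en ψ U Q x ≤ ∑ i ∈ Q, (kin ψ i x + ∑ j ∈ P, ∑ k ∈ P, U i j k x) :=
  Finset.sum_le_sum fun i _ => add_le_add le_rfl ((Finset.sum_le_sum fun j _ => Finset.sum_le_sum_of_subset_of_nonneg h fun k _ _ => U0 _ _ _ _).trans
    (Finset.sum_le_sum_of_subset_of_nonneg h fun j _ _ => Finset.sum_nonneg fun k _ => U0 _ _ _ _))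

theorem fsum {X ι : Type} [MeasurableSpace X] (μ : Measure X) (J : Finset ι) (f : ι → X → ℝ≥0∞) : ∑ c ∈ J, ∫⁻ x, f c x ∂μ ≤ ∫⁻ x, ∑ c ∈ J, f c x ∂μ := by
  classical
  induction J using Finset.induction_on with
  | empty => simp
  | insert a J ha ih => simp only [Finset.sum_insert ha]; exact (add_le_add le_rfl ih).trans (le_lintegral_add _ _)

theorem osum {ι : Type} (J : Finset ι) (f : ι → ℝ) : ENNReal.ofReal (∑ c ∈ J, f c) ≤ ∑ c ∈ J, ENNReal.ofReal (f c) := by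
  classical
  induction J using Finset.induction_on with
  | empty => simp
  | insert a J ha ih => simp only [Finset.sum_insert ha]; exact ENNReal.ofReal_add_le.trans (add_le_add le_rfl ih)

theorem fib (U0 : ∀ i j k x, 0 ≤ U i j k x) (μ : Measure (Fin N → R3)) {ι : Type} [DecidableEq ι] {P : Finset (Fin N)} {J : Finset ι} {f : Fin N → ι}
    (h : ∀ i ∈ P, f i ∈ J) {r : ι → ℝ} {G : ℝ≥0∞}
    (hr : ∀ c ∈ J, ENNReal.ofReal (r c) * G ≤ ∫⁻ x, ENNReal.ofReal (en ψ U (P.filter (f · = c)) x) ∂μ) :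
    ENNReal.ofReal (∑ c ∈ J, r c) * G ≤ ∫⁻ x, ENNReal.ofReal (en ψ U P x) ∂μ := by
  refine (mul_le_mul_left (osum _ _) _).trans ?_
  rw [Finset.sum_mul]
  refine (Finset.sum_le_sum hr).trans ((fsum μ J _).trans (lintegral_mono fun x => ?_))
  rw [← ENNReal.ofReal_sum_of_nonneg fun c _ => en0 U0 _ _]
  exact ENNReal.ofReal_le_ofReal ((Finset.sum_le_sum fun c _ => inn U0 (Finset.filter_subset _ _) x).trans
    (Finset.sum_fiberwise_of_maps_to h _).le)

theorem one (U0 : ∀ i j k x, 0 ≤ U i j k x) (μ : Measure (Fin N → R3)) {e : ℝ} (e0 : 0 ≤ e) {G : ℝ≥0∞} (p : ℕ) : ∀ P : Finset (Fin N), 3 * p ≤ P.card →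
    (∀ i ∈ P, ∀ j ∈ P, ∀ k ∈ P, i < j → j < k → ENNReal.ofReal e * G ≤ ∫⁻ x, ENNReal.ofReal (kin ψ i x + kin ψ j x + kin ψ k x + U i j k x) ∂μ) →
    ENNReal.ofReal (p * e) * G ≤ ∫⁻ x, ENNReal.ofReal (en ψ U P x) ∂μ := by
  induction p with
  | zero => simp
  | succ p ih =>
    intro P hp h
    let o := P.orderEmbOfFin rfl
    obtain ⟨i, j, k, hi, hj, hk, ij, jk⟩ : ∃ i j k, i ∈ P ∧ j ∈ P ∧ k ∈ P ∧ i < j ∧ j < k :=
      ⟨o ⟨0, by omega⟩, o ⟨1, by omega⟩, o ⟨2, by omega⟩, P.orderEmbOfFin_mem _ _, P.orderEmbOfFin_mem _ _, P.orderEmbOfFin_mem _ _,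
        o.strictMono (by simp), o.strictMono (by simp)⟩
    have ik := ij.trans jk
    have T : {i, j, k} ⊆ P := by simp [Finset.insert_subset_iff, hi, hj, hk]
    have c3 : ({i, j, k} : Finset (Fin N)).card = 3 := Finset.card_eq_three.2 ⟨i, j, k, ij.ne, ik.ne, jk.ne, rfl⟩
    have a := ih (P \ {i, j, k}) (by rw [Finset.card_sdiff_of_subset T]; omega) fun a ha b hb c hc =>
      h a (Finset.sdiff_subset ha) b (Finset.sdiff_subset hb) c (Finset.sdiff_subset hc)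
    rw [Nat.cast_succ, add_mul, one_mul, ENNReal.ofReal_add (by positivity) e0, add_mul]
    refine (add_le_add a (h i hi j hj k hk ij jk)).trans ((le_lintegral_add _ _).trans (lintegral_mono fun x => ?_))
    rw [← ENNReal.ofReal_add (en0 U0 _ _) (by linarith [kin0 (ψ := ψ) i x, kin0 (ψ := ψ) j x, kin0 (ψ := ψ) k x, U0 i j k x])]
    refine ENNReal.ofReal_le_ofReal ?_
    rw [en, en, ← Finset.sum_sdiff T]
    refine add_le_add (inn U0 Finset.sdiff_subset x) ?_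
    rw [Finset.sum_insert (by simp [ij.ne, ik.ne]), Finset.sum_pair jk.ne]
    have s : ∀ a, 0 ≤ ∑ j ∈ P, ∑ k ∈ P, U a j k x := fun a => Finset.sum_nonneg fun _ _ => Finset.sum_nonneg fun _ _ => U0 _ _ _ _
    have : U i j k x ≤ ∑ j ∈ P, ∑ k ∈ P, U i j k x := (Finset.single_le_sum (fun k _ => U0 i j k x) hk).trans
      (Finset.single_le_sum (f := fun j => ∑ k ∈ P, U i j k x) (fun j _ => Finset.sum_nonneg fun _ _ => U0 _ _ _ _) hj)
    linarith [s j, s k]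

theorem many (U0 : ∀ i j k x, 0 ≤ U i j k x) (μ : Measure (Fin N → R3)) {e : ℝ} (e0 : 0 ≤ e) {G : ℝ≥0∞} {ι : Type} [DecidableEq ι]
    {P : Finset (Fin N)} {J : Finset ι} {f : Fin N → ι} (h : ∀ i ∈ P, f i ∈ J)
    (H : ∀ i ∈ P, ∀ j ∈ P, ∀ k ∈ P, i < j → j < k → f i = f j → f i = f k →
      ENNReal.ofReal e * G ≤ ∫⁻ x, ENNReal.ofReal (kin ψ i x + kin ψ j x + kin ψ k x + U i j k x) ∂μ) :
    ENNReal.ofReal ((P.card - 2 * J.card) / 3 * e) * G ≤ ∫⁻ x, ENNReal.ofReal (en ψ U P x) ∂μ := by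
  refine le_trans (mul_le_mul_left (ENNReal.ofReal_le_ofReal ?_) _) (fib U0 μ h (r := fun c => ((P.filter (f · = c)).card / 3 : ℕ) * e)
    fun c _ => one U0 μ e0 _ _ (Nat.mul_div_le _ _) fun i hi j hj k hk ij jk => ?_)
  · rw [← Finset.sum_mul]
    gcongr
    rw [Finset.card_eq_sum_card_fiberwise h, div_le_iff₀ (by norm_num), sub_le_iff_le_add, Finset.sum_mul, Finset.card_eq_sum_ones J]
    push_cast
    rw [Finset.mul_sum, ← Finset.sum_add_distrib]
    refine Finset.sum_le_sum fun c _ => ?_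
    exact_mod_cast (by omega : ∀ q : ℕ, q ≤ q / 3 * 3 + 2 * 1) _
  · simp only [Finset.mem_filter] at hi hj hk
    exact H i hi.1 j hj.1 k hk.1 ij jk (hi.2.trans hj.2.symm) (hi.2.trans hk.2.symm)

theorem part {ι : Type} [Countable ι] {B : Fin N → Set R3} (hB : ∀ i, MeasurableSet (B i)) (c : Fin N → R3 → ι)
    (hc : ∀ i b, MeasurableSet (c i ⁻¹' {b})) {F G : (Fin N → R3) → ℝ≥0∞}
    (h : ∀ b : Fin N → ι, ∫⁻ x in univ.pi fun i => B i ∩ c i ⁻¹' {b i}, F x ≤ ∫⁻ x in univ.pi fun i => B i ∩ c i ⁻¹' {b i}, G x) :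
    ∫⁻ x in univ.pi B, F x ≤ ∫⁻ x in univ.pi B, G x := by
  have e : univ.pi B = ⋃ b : Fin N → ι, univ.pi fun i => B i ∩ c i ⁻¹' {b i} := by
    ext x
    exact ⟨fun hx => mem_iUnion.2 ⟨fun i => c i (x i), fun i _ => ⟨hx i trivial, rfl⟩⟩, fun hx => by
      obtain ⟨b, hb⟩ := mem_iUnion.1 hx
      exact fun i _ => (hb i trivial).1⟩
  have m : ∀ b : Fin N → ι, MeasurableSet (univ.pi fun i => B i ∩ c i ⁻¹' {b i}) := fun b => .univ_pi fun i => (hB i).inter (hc i _)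
  have d : Pairwise (Disjoint on fun b : Fin N → ι => univ.pi fun i => B i ∩ c i ⁻¹' {b i}) := fun a b ab =>
    Set.disjoint_left.2 fun x ha hb => ab (funext fun i => (ha i trivial).2.symm.trans (hb i trivial).2)
  rw [e, lintegral_iUnion m d, lintegral_iUnion m d]
  exact ENNReal.tsum_le_tsum h

theorem flo (o : R3) {s : ℝ} (s0 : 0 < s) (b : Fin 3 → ℤ) :
    (fun (x : R3) d => ⌊(x d - o d) / s⌋) ⁻¹' {b} = cube (fun d => o d + s * b d) s := by
  ext x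
  simp only [mem_preimage, mem_singleton_iff, funext_iff, Int.floor_eq_iff, cube, Set.mem_pi, mem_univ, true_imp_iff, mem_Ico, le_div_iff₀ s0,
    div_lt_iff₀ s0]
  exact forall_congr' fun d => ⟨fun h => ⟨by linarith [h.1], by linarith [h.2]⟩, fun h => ⟨by linarith [h.1], by linarith [h.2]⟩⟩

theorem pick {C0 σ R A C1 : ℝ} (c0 : 0 < C0) (s0 : 0 < σ) (sR : σ ≤ R) (A0 : 0 ≤ A) (c1 : 0 ≤ C1) {b n : ℝ} (b1 : 1 ≤ b) (bn : b ≤ n)
    (b3 : b ^ 3 ≤ n ^ 2) (h1 : A * b ^ 3 ≤ n ^ 2 / (384 * C0 * σ ^ 6) + C1) {q : ℕ} (hq : (q : ℝ) ≤ n ^ 2) :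
    ∃ k : ℕ, 1 ≤ k ∧ σ ≤ R / b / k * n ∧ ENNReal.ofReal ((A * (b ^ 3 / n ^ 2) * q - (3 * A + 1536 * A ^ 2 * C0 * R ^ 6 + C1)) * q) ≤
      ENNReal.ofReal ((q - 2 * (k : ℝ) ^ 3) / 3 * (C0 * n ^ 4 * (R / b / k) ^ 6)⁻¹) := by
  have b0 : 0 < b := by linarith
  have n0 : 0 < n := by linarith
  have R0 : 0 < R := by linarith
  have p1 : σ ≤ R / b * n := by
    rw [div_mul_eq_mul_div, le_div_iff₀ b0]; exact mul_le_mul sR bn b0.le R0.le
  have t : 0 ≤ 1536 * A ^ 2 * C0 * R ^ 6 := by positivity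
  rcases lt_or_ge q 4 with h | h
  · refine ⟨1, le_rfl, by simpa using p1, le_trans (le_of_eq (ENNReal.ofReal_eq_zero.2 (mul_nonpos_of_nonpos_of_nonneg ?_ (by positivity)))) bot_le⟩
    have : (q : ℝ) ≤ 3 := by exact_mod_cast (by omega : q ≤ 3)
    have : A * (b ^ 3 / n ^ 2) * q ≤ A * 1 * 3 := by gcongr; exact (div_le_one (by positivity)).2 b3
    linarith
  classical
  let Q := fun k : ℕ => 4 * k ^ 3 ≤ q ∧ σ * k ≤ R / b * n
  have Q1 : Q 1 := ⟨by simpa using h, by simpa using p1⟩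
  set k := Nat.findGreatest Q q
  have k1 : 1 ≤ k := Nat.le_findGreatest (by omega) Q1
  have hk : Q k := Nat.findGreatest_spec (by omega : 1 ≤ q) Q1
  have nk : ¬ Q (k + 1) := Nat.findGreatest_is_greatest (Nat.lt_succ_self _) (by nlinarith [hk.1, Nat.le_self_pow three_ne_zero k])
  have K1 : (1 : ℝ) ≤ k := by exact_mod_cast k1
  have K3 : 4 * (k : ℝ) ^ 3 ≤ q := by exact_mod_cast hk.1
  refine ⟨k, k1, by rw [div_mul_eq_mul_div, le_div_iff₀ (by linarith)]; exact hk.2, ENNReal.ofReal_le_ofReal ?_⟩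
  have e : (C0 * n ^ 4 * (R / b / k) ^ 6)⁻¹ = (k * b) ^ 6 / (C0 * n ^ 4 * R ^ 6) := by field_simp
  rw [e]
  refine le_trans ?_ (mul_le_mul_of_nonneg_right (show (q : ℝ) / 6 ≤ _ by linarith) (by positivity))
  rw [mul_comm, div_mul_eq_mul_div, mul_div_assoc]
  gcongr
  rcases lt_or_ge q (4 * (k + 1) ^ 3) with g | g
  · have g1 : (q : ℝ) ≤ 32 * k ^ 3 := by
      have : (q : ℝ) ≤ 4 * (k + 1) ^ 3 := by exact_mod_cast g.le
      have := pow_le_pow_left₀ (by positivity) (by linarith : (k : ℝ) + 1 ≤ 2 * k) 3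
      nlinarith
    set x := b ^ 3 / n ^ 2 * q with hx
    have : x ^ 2 / (6144 * (C0 * R ^ 6)) ≤ (k * b) ^ 6 / (C0 * n ^ 4 * R ^ 6) / 6 := by
      rw [hx, div_div, div_le_div_iff₀ (by positivity) (by positivity)]
      calc _ = (q : ℝ) ^ 2 * (b ^ 6 * C0 * R ^ 6 * 6) := by field_simp
        _ ≤ (32 * k ^ 3) ^ 2 * (b ^ 6 * C0 * R ^ 6 * 6) := by gcongr
        _ = _ := by ring
    refine le_trans ?_ this
    rw [le_div_iff₀ (by positivity), mul_assoc, ← hx]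
    have y : 0 < C0 * R ^ 6 := by positivity
    nlinarith [sq_nonneg (x - 3072 * A * (C0 * R ^ 6)), mul_nonneg A0 y.le, mul_nonneg c1 y.le]
  · have g1 : R / b * n < σ * (k + 1) := by simpa using not_le.1 fun a => nk ⟨g, a⟩
    have g2 : R * n ≤ 2 * σ * (k * b) := by
      rw [div_mul_eq_mul_div, div_lt_iff₀ b0] at g1; nlinarith [mul_pos s0 b0]
    have : n ^ 2 / (384 * C0 * σ ^ 6) ≤ (k * b) ^ 6 / (C0 * n ^ 4 * R ^ 6) / 6 := by
      rw [div_div, div_le_div_iff₀ (by positivity) (by positivity)]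
      calc _ = (R * n) ^ 6 * (C0 * 6) := by ring
        _ ≤ (2 * σ * (k * b)) ^ 6 * (C0 * 6) := by gcongr
        _ = _ := by ring
    have : A * (b ^ 3 / n ^ 2) * q ≤ A * b ^ 3 := by
      calc _ ≤ A * (b ^ 3 / n ^ 2) * n ^ 2 := by gcongr
        _ = _ := by field_simp
    linarith

theorem nb (a : Fin N → Fin 3 → ℤ) : ∑ i, ∑ j, (if ∀ d, |a i d - a j d| ≤ 1 then (1 : ℝ) else 0) ≤
    54 * ∑ i, ((Finset.univ.filter fun j => a j = a i).card : ℝ) := by
  let n := fun i => (Finset.univ.filter fun j => a j = a i).card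
  have h : ∀ i, ∑ j, (if (∀ d, |a i d - a j d| ≤ 1) ∧ n j ≤ n i then (1 : ℝ) else 0) ≤ 27 * n i := fun i => by
    rw [Finset.sum_boole]
    have := Finset.card_le_mul_card_image_of_maps_to (f := a) (s := Finset.univ.filter fun j => (∀ d, |a i d - a j d| ≤ 1) ∧ n j ≤ n i)
      (t := Fintype.piFinset fun d => Finset.Icc (a i d - 1) (a i d + 1)) (fun j hj => by
        simp only [Finset.mem_filter, abs_le] at hj
        simp only [Fintype.mem_piFinset, Finset.mem_Icc]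
        exact fun d => ⟨by linarith [(hj.2.1 d).2], by linarith [(hj.2.1 d).1]⟩) (n i) fun b _ => by
        rcases Finset.eq_empty_or_nonempty ((Finset.univ.filter fun j => (∀ d, |a i d - a j d| ≤ 1) ∧ n j ≤ n i).filter (a · = b)) with e | ⟨j, hj⟩
        · simp [e]
        · simp only [Finset.mem_filter] at hj
          refine le_trans (Finset.card_le_card fun l hl => ?_) hj.1.2.2
          simp only [Finset.mem_filter] at hl ⊢
          exact ⟨hl.1.1, hl.2.trans hj.2.symm⟩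
    have c : (Fintype.piFinset fun d => Finset.Icc (a i d - 1) (a i d + 1)).card = 27 := by
      simp [Fintype.card_piFinset, show ∀ z : ℤ, z + 1 + 1 - (z - 1) = 3 from fun z => by ring]
    rw [c, mul_comm] at this
    exact_mod_cast this
  calc _ ≤ ∑ i, ∑ j, ((if (∀ d, |a i d - a j d| ≤ 1) ∧ n j ≤ n i then (1 : ℝ) else 0) +
        (if (∀ d, |a j d - a i d| ≤ 1) ∧ n i ≤ n j then (1 : ℝ) else 0)) := Finset.sum_le_sum fun i _ => Finset.sum_le_sum fun j _ => by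
        by_cases e : ∀ d, |a i d - a j d| ≤ 1
        · have e' : ∀ d, |a j d - a i d| ≤ 1 := fun d => abs_sub_comm (a i d) _ ▸ e d
          rcases le_total (n i) (n j) with g | g <;> simp only [e, e', g, implies_true, true_and, if_true] <;> split_ifs <;> norm_num
        · rw [if_neg e]; positivity
    _ ≤ _ := by
        simp only [Finset.sum_add_distrib]
        rw [Finset.sum_comm (f := fun i j => if (∀ d, |a j d - a i d| ≤ 1) ∧ n i ≤ n j then (1 : ℝ) else 0)]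
        have := Finset.sum_le_sum fun i (_ : i ∈ Finset.univ) => h i
        rw [← Finset.mul_sum] at this
        linarith

end Pool.Agent.H.MP_a755a8_mp
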