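import Pool.Agent.H.MP_a755a8_mp.C

open MeasureTheory Filter Topology Set Real Function
open scoped ENNReal

namespace Pool.Agent.H.MP_a755a8_mp

theorem subl {γ A ε : ℝ} (g1 : γ < 1) (A0 : 0 ≤ A) (e0 : 0 < ε) : ∃ C ≥ 0, ∀ N : ℕ, 1 ≤ N → A * (N : ℝ) ^ γ ≤ N / ε + C := by
  obtain ⟨M, hM⟩ := eventually_atTop.1 (((tendsto_rpow_atTop (sub_pos.2 g1)).comp tendsto_natCast_atTop_atTop).eventually_ge_atTop (A * ε))
  refine ⟨A * M, by positivity, fun N hN => ?_⟩
  have n1 : (1 : ℝ) ≤ N := by exact_mod_cast hN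
  rcases le_total M N with h | h
  · have a : A * ε ≤ (N : ℝ) ^ (1 - γ) := hM N h
    have p : 0 < (N : ℝ) ^ γ := by positivity
    rw [rpow_sub (by linarith), rpow_one, le_div_iff₀ p] at a
    have : A * (N : ℝ) ^ γ ≤ N / ε := by rw [le_div_iff₀ e0]; linarith
    have : 0 ≤ A * M := by positivity
    linarith
  · have a : (N : ℝ) ^ γ ≤ M := ((rpow_le_rpow_of_exponent_le n1 g1.le).trans_eq (rpow_one _)).trans (by exact_mod_cast h)
    have := mul_le_mul_of_nonneg_left a A0
    have : 0 ≤ N / ε := by positivity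
    linarith

noncomputable def U3 (V : R3 × R3 → ℝ) {N : ℕ} (ψ : (Fin N → R3) → ℂ) (i j k : Fin N) (x : Fin N → R3) : ℝ :=
  if i < j ∧ j < k then N * V (√N • (x i - x j), √N • (x i - x k)) * ‖ψ x‖ ^ 2 else 0

theorem core {V : R3 × R3 → ℝ} (mV : Measurable V) (V0 : ∀ p, 0 ≤ V p) (cV : HasCompactSupport V) (nV : ¬ V =ᵐ[volume] 0)
    {β w ρ : ℝ} (b0 : 0 < β) (b1 : β < 1 / 3) (w0 : 0 ≤ w) : ∃ C > 0, ∀ N : ℕ, 1 ≤ N → ∀ ψ : (Fin N → R3) → ℂ, ContDiff ℝ 1 ψ →
    ∫⁻ x, ENNReal.ofReal ((N : ℝ) ^ (3 * β - 1) * w * (∑ i, ∑ j, if ‖(N : ℝ) ^ β • (x i - x j)‖ ≤ ρ then 1 else 0) * ‖ψ x‖ ^ 2) ≤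
      ∫⁻ x, (ENNReal.ofReal (en ψ (U3 V ψ) Finset.univ x) + ENNReal.ofReal (C * N) * ENNReal.ofReal (‖ψ x‖ ^ 2)) := by
  obtain ⟨C0, c0, σ, s0, tr⟩ := triple mV V0 cV nV
  obtain ⟨C1, c1, h1⟩ := subl (γ := 3 * β) (A := 54 * w) (ε := 384 * C0 * σ ^ 6) (by linarith) (by positivity) (by positivity)
  set R := max ρ σ
  have sR : σ ≤ R := le_max_right _ _
  have R0 : 0 < R := s0.trans_le sR
  set C := 3 * (54 * w) + 1536 * (54 * w) ^ 2 * C0 * R ^ 6 + (C1 + 1)
  refine ⟨C, by positivity, fun N hN ψ h => ?_⟩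
  have n1 : (1 : ℝ) ≤ N := by exact_mod_cast hN
  set b := (N : ℝ) ^ β
  set n := √(N : ℝ)
  have n2 : n ^ 2 = N := sq_sqrt (by linarith)
  have n0 : 0 < n := by positivity
  have bb : 1 ≤ b := one_le_rpow n1 b0.le
  have b3 : b ^ 3 = (N : ℝ) ^ (3 * β) := by rw [mul_comm, rpow_mul (by linarith)]; norm_cast
  have bn : b ≤ n := by rw [show n = _ from sqrt_eq_rpow _]; exact rpow_le_rpow_of_exponent_le n1 (by linarith)
  have b4 : b ^ 3 ≤ n ^ 2 := by rw [b3, n2]; exact (rpow_le_rpow_of_exponent_le n1 (by linarith)).trans_eq (rpow_one _)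
  choose! k k1 k2 k3 using fun (q : ℕ) (hq : q ≤ N) => pick (A := 54 * w) (C1 := C1 + 1) (q := q) c0 s0 sR (by positivity) (by positivity) bb bn b4
    (by rw [b3, n2]; linarith [h1 N hN]) (by rw [n2]; exact_mod_cast hq)
  have U0 : ∀ i j k x, 0 ≤ U3 V ψ i j k x := fun i j k x => by
    have := V0 (√N • (x i - x j), √N • (x i - x k))
    unfold U3; split_ifs <;> positivity
  set l := R / b
  have l0 : 0 < l := by positivity
  rw [← setLIntegral_univ, ← setLIntegral_univ (fun x => _ + _), ← pi_univ (univ : Set (Fin N))]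
  refine part (fun _ => .univ) (fun _ x d => ⌊(x d - (0 : R3) d) / l⌋) (fun i a => by rw [flo 0 l0]; exact cube_m _ _) fun a => ?_
  simp only [flo 0 l0, univ_inter]
  let q := fun α => (Finset.univ.filter fun j => a j = α).card
  have qN : ∀ α, q α ≤ N := fun α => (Finset.card_filter_le _ _).trans (by simp)
  have k0 : ∀ α, (0 : ℝ) < k (q α) := fun α => by exact_mod_cast k1 _ (qN α)
  have s1 : ∀ α, 0 < l / k (q α) := fun α => div_pos l0 (k0 α)
  refine part (fun _ => cube_m _ _) (fun i x d => ⌊(x d - ((0 : R3) d + l * a i d)) / (l / k (q (a i)))⌋)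
    (fun i c => by rw [flo _ (s1 _)]; exact cube_m _ _) fun c => ?_
  simp only [flo _ (s1 _)]
  by_cases hc : ∀ i d, 0 ≤ c i d ∧ c i d < k (q (a i))
  swap
  · push Not at hc
    obtain ⟨i, d, hc⟩ := hc
    rw [univ_pi_eq_empty (i := i) ?_]
    · simp
    refine eq_empty_of_forall_notMem fun x ⟨hx, hy⟩ => ?_
    have x1 := hx d trivial; have y1 := hy d trivial
    simp only [mem_Ico] at x1 y1
    have e : l / k (q (a i)) * k (q (a i)) = l := div_mul_cancel₀ _ (k0 _).ne'
    have := s1 (a i)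
    rcases lt_or_ge (c i d) 0 with g | g
    · have : (c i d : ℝ) + 1 ≤ 0 := by exact_mod_cast g
      nlinarith
    · have : (k (q (a i)) : ℝ) ≤ c i d := by exact_mod_cast hc g
      nlinarith
  set B := fun i => cube (fun d => (0 : R3) d + l * a i d) l ∩ cube (fun d => (0 : R3) d + l * a i d + l / k (q (a i)) * c i d) (l / k (q (a i)))
  have hB : ∀ i, B i = cube (fun d => (0 : R3) d + l * a i d + l / k (q (a i)) * c i d) (l / k (q (a i))) := fun i =>
    inter_eq_right.2 fun x hx d _ => by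
      have y1 := hx d trivial
      simp only [mem_Ico] at y1 ⊢
      have e : l / k (q (a i)) * k (q (a i)) = l := div_mul_cancel₀ _ (k0 _).ne'
      have := s1 (a i)
      have g1 : (0 : ℝ) ≤ c i d := by exact_mod_cast (hc i d).1
      have g2 : (c i d : ℝ) + 1 ≤ k (q (a i)) := by exact_mod_cast (hc i d).2
      constructor <;> nlinarith
  set G := ∫⁻ x in univ.pi B, ENNReal.ofReal (‖ψ x‖ ^ 2)
  have A := fib (ψ := ψ) U0 (volume.restrict (univ.pi B)) (P := Finset.univ) (J := Finset.univ.image a) (f := a) (G := G)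
    (fun i hi => Finset.mem_image_of_mem a hi) (r := fun α => (54 * w * (b ^ 3 / n ^ 2) * q α - C) * q α) fun α _ => by
      refine (mul_le_mul_left (k3 _ (qN α)) _).trans ?_
      have := many (ψ := ψ) U0 (volume.restrict (univ.pi B)) (e := (C0 * n ^ 4 * (l / k (q α)) ^ 6)⁻¹) (by have := s1 α; positivity) (G := G)
        (P := Finset.univ.filter (a · = α)) (J := Fintype.piFinset fun _ => Finset.Ico (0 : ℤ) (k (q α))) (f := c) (fun i hi => by
          simp only [Finset.mem_filter] at hi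
          simpa [← hi.2] using hc i) fun i hi j hj m hm ij jm e1 e2 => by
          simp only [Finset.mem_filter] at hi hj hm
          have := tr N ψ h B i j m (fun d => (0 : R3) d + l * α d + l / k (q α) * c i d) (l / k (q α)) n ij jm (by rw [hB, hi.2])
            (by rw [hB, hj.2, e1]) (by rw [hB, hm.2, e2]) n0 (k2 _ (qN α))
          refine (mul_le_mul_right this _).trans (le_of_eq ?_)
          have := s1 α
          rw [← mul_assoc, ← ENNReal.ofReal_mul (by positivity), inv_mul_cancel₀ (by positivity), ENNReal.ofReal_one, one_mul, n2]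
          simp [U3, ij, jm, n]
      simpa [Fintype.card_piFinset] using this
  refine le_trans ?_ (le_lintegral_add _ _)
  rw [lintegral_const_mul' _ _ ENNReal.ofReal_ne_top]
  refine le_trans ?_ (add_le_add A le_rfl)
  rw [← add_mul, ← lintegral_const_mul' _ _ (by simp)]
  refine setLIntegral_mono' (.univ_pi fun i => (cube_m _ _).inter (cube_m _ _)) fun x hx => ?_
  rw [ENNReal.ofReal_mul' (by positivity)]
  gcongr
  refine le_trans (ENNReal.ofReal_le_ofReal ?_) ENNReal.ofReal_add_le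
  have e1 : ∑ α ∈ Finset.univ.image a, (54 * w * (b ^ 3 / n ^ 2) * q α - C) * q α = ∑ i, (54 * w * (b ^ 3 / n ^ 2) * q (a i) - C) := by
    rw [Finset.sum_comp (fun α => 54 * w * (b ^ 3 / n ^ 2) * q α - C) a]
    exact Finset.sum_congr rfl fun α _ => by simp [q, mul_comm]
  rw [e1, Finset.sum_sub_distrib, ← Finset.mul_sum, rpow_sub (by linarith), rpow_one, ← b3, n2]
  simp only [Finset.sum_const, Finset.card_univ, Fintype.card_fin, nsmul_eq_mul]
  have e2 : (∑ i, ∑ j, if ‖b • (x i - x j)‖ ≤ ρ then (1 : ℝ) else 0) ≤ 54 * ∑ i, (q (a i) : ℝ) := by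
    refine le_trans (Finset.sum_le_sum fun i _ => Finset.sum_le_sum fun j _ => ?_) (nb a)
    split_ifs with g1 g2 <;> try norm_num
    refine g2 fun d => ?_
    have z := ((norm_le_pi_norm _ d).trans g1).trans (le_max_left ρ σ)
    rw [Pi.smul_apply, norm_smul, Real.norm_eq_abs, abs_of_pos (by linarith), ← le_div_iff₀' (by linarith), Real.norm_eq_abs, Pi.sub_apply, abs_le] at z
    have x1 := (hx i trivial).1 d trivial; have x2 := (hx j trivial).1 d trivial
    simp only [mem_Ico] at x1 x2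
    have y1 : (a i d : ℝ) - a j d < 2 := lt_of_mul_lt_mul_left (a := l) (by linarith [z.2]) l0.le
    have y2 : (a j d : ℝ) - a i d < 2 := lt_of_mul_lt_mul_left (a := l) (by linarith [z.1]) l0.le
    have y3 : a i d - a j d < 2 := by exact_mod_cast y1
    have y4 : a j d - a i d < 2 := by exact_mod_cast y2
    rw [abs_le]; omega
  nlinarith [mul_le_mul_of_nonneg_left e2 (by positivity : 0 ≤ b ^ 3 / N * w)]

end Pool.Agent.H.MP_a755a8_mp
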