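import Pool.Agent.H.MP_a755a8_mp.D

open MeasureTheory Filter Topology Set Real Function
open scoped ContDiff

namespace Pool.Agent.H.MP_a755a8_mp

variable {N : ℕ} {ψ : (Fin N → R3) → ℂ}

theorem ib (h : Continuous ψ) (hs : HasCompactSupport ψ) {f : (Fin N → R3) → ℝ} (mf : Measurable f) (hf : ∀ R, ∃ M, ∀ x, ‖x‖ ≤ R → |f x| ≤ M) :
    Integrable fun x => f x * ‖ψ x‖ ^ 2 := by
  obtain ⟨R, R0, hR⟩ := hs.isCompact.isBounded.exists_pos_norm_le
  obtain ⟨M, hM⟩ := hf R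
  have c : Continuous fun x => ‖ψ x‖ ^ 2 := h.norm.pow 2
  have s : HasCompactSupport fun x => ‖ψ x‖ ^ 2 := hs.comp_left (g := fun z : ℂ => ‖z‖ ^ 2) (by simp)
  have i : Integrable fun x => ‖ψ x‖ ^ 2 := c.integrable_of_hasCompactSupport s
  refine (i.const_mul M).mono' (mf.mul c.measurable).aestronglyMeasurable (.of_forall fun x => ?_)
  by_cases e : ψ x = 0
  · simp [e]
  · rw [norm_mul, Real.norm_eq_abs, Real.norm_eq_abs, abs_sq]; gcongr; exact hM x (hR x (subset_tsupport _ e))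

theorem ik (h : ContDiff ℝ 1 ψ) (hs : HasCompactSupport ψ) (i : Fin N) : Integrable (kin ψ i) :=
  (kin_c h i).integrable_of_hasCompactSupport ((hs.fderiv ℝ).comp_left (g := fun L : (Fin N → R3) →L[ℝ] ℂ =>
    ∑ d, ‖L (Pi.single i (Pi.single d 1))‖ ^ 2) (by simp))

theorem prs (N : ℕ) : ∑ i : Fin N, ∑ j : Fin N, (if i < j then (1 : ℝ) else 0) = N * (N - 1) / 2 := by
  have a : ∑ i : Fin N, ∑ j : Fin N, ((if i < j then (1 : ℝ) else 0) + (if j < i then 1 else 0) + if i = j then 1 else 0) = N * N := by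
    refine (Finset.sum_congr rfl fun i _ => Finset.sum_congr rfl fun j _ => (?_ : _ = (1 : ℝ))).trans (by simp)
    rcases lt_trichotomy i j with e | e | e
    · simp [e, e.ne, e.not_gt]
    · simp [e]
    · simp [e, e.ne', e.not_gt]
  simp only [Finset.sum_add_distrib] at a
  rw [Finset.sum_comm (f := fun i j : Fin N => if j < i then (1 : ℝ) else 0)] at a
  simp only [Finset.sum_ite_eq, Finset.mem_univ, if_true, Finset.sum_const, Finset.card_univ, Fintype.card_fin, nsmul_eq_mul] at a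
  linarith

theorem trial : ∃ κ ≥ 0, ∀ (N : ℕ) (ν : ℝ), 0 < ν → ∃ ψ : (Fin N → R3) → ℂ, ContDiff ℝ ∞ ψ ∧ HasCompactSupport ψ ∧
    (∀ (σ : Equiv.Perm (Fin N)) x, ψ (x ∘ σ) = ψ x) ∧ (∀ x, ψ x ≠ 0 → ∀ i, ‖ν • x i‖ ≤ 1 / 2) ∧ 0 < ∫ x, ‖ψ x‖ ^ 2 ∧
    ∀ i, ∫ x, kin ψ i x = κ * ν ^ 2 * ∫ x, ‖ψ x‖ ^ 2 := by
  let u : ContDiffBump (0 : R3) := ⟨1 / 4, 1 / 2, by norm_num, by norm_num⟩
  have su : ContDiff ℝ ∞ u := u.contDiff
  have m0 : 0 < ∫ t, u t ^ 2 := (u.continuous.pow 2).integral_pos_of_hasCompactSupport_nonneg_nonzero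
    (u.hasCompactSupport.comp_left (g := fun z => z ^ 2) (by simp)) (fun t => sq_nonneg _) (x := 0) (by simp [u.one_of_mem_closedBall (Metric.mem_closedBall_self u.rIn_pos.le)])
  refine ⟨(∑ d, ∫ t, fderiv ℝ u t (Pi.single d 1) ^ 2) / ∫ t, u t ^ 2, div_nonneg (Finset.sum_nonneg fun d _ => integral_nonneg fun t => sq_nonneg _) m0.le,
    fun N ν n0 => ?_⟩
  let ψ : (Fin N → R3) → ℂ := fun x => ∏ i, (u (ν • x i) : ℂ)
  have sψ : ContDiff ℝ ∞ ψ := contDiff_prod fun i _ => Complex.ofRealCLM.contDiff.comp (su.comp (by fun_prop))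
  have sp : ∀ x, ψ x ≠ 0 → ∀ i, ‖ν • x i‖ ≤ 1 / 2 := fun x hx i => by
    have := Finset.prod_ne_zero_iff.1 hx i (Finset.mem_univ i)
    have : ν • x i ∈ support u := by simpa using this
    rw [u.support_eq] at this
    exact (mem_ball_zero_iff.1 this).le
  have cs : HasCompactSupport ψ := .intro (isCompact_closedBall 0 (1 / 2 / ν)) fun x hx => by
    by_contra e
    refine hx (mem_closedBall_zero_iff.2 ((pi_norm_le_iff_of_nonneg (by positivity)).2 fun i => ?_))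
    have := sp x e i
    rwa [norm_smul, Real.norm_eq_abs, abs_of_pos n0, ← le_div_iff₀' n0] at this
  have sc : ∀ f : R3 → ℝ, ∫ t, f (ν • t) = (ν ^ 3)⁻¹ * ∫ t, f t := fun f => by
    rw [Measure.integral_comp_smul]; simp [abs_of_pos n0]
  have G : ∫ x, ‖ψ x‖ ^ 2 = ∏ _ : Fin N, (ν ^ 3)⁻¹ * ∫ t, u t ^ 2 := by
    rw [← sc fun t => u t ^ 2, ← integral_fintype_prod_volume_eq_prod]
    simp [ψ, ← Finset.prod_pow]
  refine ⟨ψ, sψ, cs, fun σ x => Equiv.prod_comp σ fun i => (u (ν • x i) : ℂ), sp, by rw [G]; positivity, fun i => ?_⟩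
  have D : ∀ x v, fderiv ℝ ψ x (Pi.single i v) = ((ν * fderiv ℝ u (ν • x i) v : ℝ) : ℂ) * ∏ j ∈ Finset.univ \ {i}, (u (ν • x j) : ℂ) := fun x v => by
    have a := (sψ.differentiable (by simp) (update x i (x i))).hasFDerivAt.comp (x i) (hasFDerivAt_update (𝕜 := ℝ) x (x i))
    have b : HasFDerivAt (fun t => (u (ν • t) : ℂ) * ∏ j ∈ Finset.univ \ {i}, (u (ν • x j) : ℂ)) _ (x i) :=
      (Complex.ofRealCLM.hasFDerivAt.comp (x i) ((su.differentiable (by simp) _).hasFDerivAt.comp (x i) ((hasFDerivAt_id (x i)).const_smul ν))).mul_const _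
    have e : ψ ∘ update x i = fun t => (u (ν • t) : ℂ) * ∏ j ∈ Finset.univ \ {i}, (u (ν • x j) : ℂ) := funext fun t => by
      rw [← Finset.prod_update_of_mem (Finset.mem_univ i)]
      exact Finset.prod_congr rfl fun j _ => by by_cases e : j = i <;> simp [e]
    rw [e, update_eq_self] at a
    have c := congrArg (· v) (a.unique b)
    have d : (ContinuousLinearMap.pi (Pi.single i (ContinuousLinearMap.id ℝ R3)) : R3 →L[ℝ] (Fin N → R3)) v = Pi.single i v := funext fun j => by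
      by_cases e : j = i
      · subst e; simp
      · simp [e]
    simp only [ContinuousLinearMap.comp_apply, d] at c
    rw [c]; simp [mul_comm]
  have I : ∀ d, ∫ x, ‖fderiv ℝ ψ x (Pi.single i (Pi.single d 1))‖ ^ 2 =
      ν ^ 2 * ((ν ^ 3)⁻¹ * ∫ t, fderiv ℝ u t (Pi.single d 1) ^ 2) * ∏ _ ∈ Finset.univ \ {i}, (ν ^ 3)⁻¹ * ∫ t, u t ^ 2 := fun d => by
    rw [← sc fun t => u t ^ 2, ← sc fun t => fderiv ℝ u t (Pi.single d 1) ^ 2, ← integral_const_mul,
      ← Finset.prod_update_of_mem (Finset.mem_univ i) (fun _ => ∫ t, u (ν • t) ^ 2)]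
    have := integral_fintype_prod_volume_eq_prod (E := fun _ : Fin N => R3)
      (update (fun _ t => u (ν • t) ^ 2) i fun t => ν ^ 2 * fderiv ℝ u (ν • t) (Pi.single d 1) ^ 2)
    refine Eq.trans (integral_congr_ae (.of_forall fun x => ?_)) (this.trans (Finset.prod_congr rfl fun j _ => ?_))
    · simp only [D]
      rw [← Finset.mul_prod_erase _ _ (Finset.mem_univ i), Finset.sdiff_singleton_eq_erase, norm_mul, mul_pow, norm_prod, ← Finset.prod_pow]
      congr 1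
      · simp [mul_pow]
      · exact Finset.prod_congr rfl fun j hj => by simp [Finset.ne_of_mem_erase hj]
    · by_cases e : j = i <;> simp [e]
  have c1 := (sψ.of_le (by simp : (1 : WithTop ℕ∞) ≤ ∞)).continuous_fderiv one_ne_zero
  unfold kin
  rw [integral_finsetSum (f := fun d x => ‖fderiv ℝ ψ x (Pi.single i (Pi.single d 1))‖ ^ 2) _ fun d _ => Continuous.integrable_of_hasCompactSupport (by fun_prop) ((cs.fderiv ℝ).comp_left
    (g := fun L : (Fin N → R3) →L[ℝ] ℂ => ‖L (Pi.single i (Pi.single d 1))‖ ^ 2) (by simp))]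
  simp only [I]
  rw [G, ← Finset.mul_prod_erase _ _ (Finset.mem_univ i), Finset.sdiff_singleton_eq_erase, ← Finset.sum_mul, ← Finset.mul_sum, ← Finset.mul_sum]
  field_simp

noncomputable def gg (p : R3) : ℝ := max 0 (1 - |‖p‖ - 2|)

theorem gg0 {p : R3} (h : ‖p‖ ≤ 1 ∨ 3 ≤ ‖p‖) : gg p = 0 := max_eq_left (by
  rcases h with h | h
  · rw [abs_of_nonpos (by linarith)]; linarith
  · rw [abs_of_nonneg (by linarith)]; linarith)

theorem hole : ∃ V : R3 × R3 → ℝ, Measurable V ∧ (∀ p, 0 ≤ V p) ∧ (∀ p, V p ≤ 1) ∧ HasCompactSupport V ∧ ¬ V =ᵐ[volume] 0 ∧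
    (∀ x y, V (x, y) = V (y, x)) ∧ (∀ x y z, V (x - y, x - z) = V (y - x, y - z) ∧ V (y - x, y - z) = V (z - y, z - x)) ∧
    ∀ p q, ‖p‖ ≤ 1 → V (p, q) = 0 := by
  have c : Continuous gg := by unfold gg; fun_prop
  have g0 : ∀ p, 0 ≤ gg p := fun p => le_max_left _ _
  have g1 : ∀ p, gg p ≤ 1 := fun p => max_le zero_le_one (by linarith [abs_nonneg (‖p‖ - 2)])
  have ge : ∀ x y, gg (x - y) = gg (y - x) := fun x y => by rw [gg, gg, norm_sub_rev]
  have cV : Continuous fun p : R3 × R3 => gg p.1 * gg p.2 * gg (p.1 - p.2) := by fun_prop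
  refine ⟨fun p => gg p.1 * gg p.2 * gg (p.1 - p.2), cV.measurable, fun p => mul_nonneg (mul_nonneg (g0 _) (g0 _)) (g0 _),
    fun p => mul_le_one₀ (mul_le_one₀ (g1 _) (g0 _) (g1 _)) (g0 _) (g1 _), .intro (isCompact_closedBall 0 3) fun p hp => ?_, fun e => ?_,
    fun x y => by simp only [ge x y]; ring, fun x y z => ?_, fun p q h => by simp [gg0 (.inl h)]⟩
  · rcases lt_max_iff.1 (not_le.1 fun e => hp (mem_closedBall_zero_iff.2 e) : 3 < max ‖p.1‖ ‖p.2‖) with h | h <;> simp [gg0 (.inr h.le)]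
  · have := congrFun ((cV.ae_eq_iff_eq volume continuous_const).1 e) (![2, 0, 0], ![0, 2, 0])
    have n : ∀ a b : ℝ, ‖(![a, b, 0] : R3)‖ = max |a| |b| := fun a b => by
      simp [Pi.norm_def, Finset.sup, Fin.univ_succ, ← Real.norm_eq_abs, NNReal.coe_max]
    have d : (![2, 0, 0] : R3) - ![0, 2, 0] = ![2, -2, 0] := by ext i; fin_cases i <;> simp
    simp only [d, gg, n] at this
    norm_num at this
    exact one_ne_zero this
  · simp only [sub_sub_sub_cancel_left, ge x y, ge x z, ge y z]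
    constructor <;> ring

end Pool.Agent.H.MP_a755a8_mp
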